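import Pool.Agent.helper37.NA.Spec

/-!
# Project na, row NQB
-/

set_option autoImplicit false

namespace Pool.Agent.NAB

open Pool.Agent.helper58.DC Pool.Agent.DI Pool.Agent.GR Pool.Agent.OB Pool.Agent.DR Pool.Agent.FI Pool.Agent.FI3 Pool.Agent.FI4 Pool.Agent.FI4I Pool.Agent.LE Pool.Agent.L5

theorem NQB_mem_Cz {G : Type} [Group G] (L : Subgroup G) (y x : G) : x ∈ Cz L y ↔ x ∈ L ∧ y * x = x * y := by
  unfold Cz
  rw [Subgroup.mem_inf, Subgroup.mem_centralizer_iff]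
  simp

theorem NQB (hCFX : Pool.Agent.FI.CFX_stmt) (hSYL : SYL_stmt) (hCLS : CLS_stmt) : NQB_stmt := by
  intro p M hS G _ _ H D hDp hDH y hy hDc f hf hfI u hu
  classical
  have : Fact p.Prime := ⟨hS.pr⟩
  by_cases hmain : Nat.card D = pp p (Cz H u)
  · exact Or.inr hmain
  left
  obtain ⟨k1, k2, k3, k4, k5, -, -, -, -⟩ := hCLS G H y
  obtain ⟨s1, s2, s3, s4, s5, s6, -, -, -⟩ := hSYL p G
  have hkI : ∀ x, IntAt M (cls H y x) := fun x => IntAt.of_isIntegral hS (k3 x)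
  have huH : u ∈ H := (Subgroup.mem_inf.1 hu).1
  have huD : u ∈ cz D := (Subgroup.mem_inf.1 hu).2
  have hDC : D ≤ Cz H u := by
    intro d hd
    refine (NQB_mem_Cz H u d).2 ⟨hDH hd, ?_⟩
    exact (Subgroup.mem_centralizer_iff.1 huD d hd).symm
  obtain ⟨Q, hDQ, hQC, hQp, hQc⟩ := s2 D (Cz H u) hDp hDC
  have hQH : ∀ q ∈ Q, q ∈ H := fun q hq => ((NQB_mem_Cz H u q).1 (hQC hq)).1
  have hQu : ∀ q ∈ Q, u * q = q * u := fun q hq => ((NQB_mem_Cz H u q).1 (hQC hq)).2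
  have hb := hCFX p M hS G Q hQp (fun x => cls H y x * f (x⁻¹ * u))
    (fun x => (hkI x).mul hS (hfI _)) (by
      intro r hr x
      have e1 : cls H y (r * x * r⁻¹) = cls H y x := k1 r (hQH r hr) x
      have e2 : (r * x * r⁻¹)⁻¹ * u = r * (x⁻¹ * u) * r⁻¹ := by
        have h3 : r⁻¹ * u = u * r⁻¹ := (hQu r⁻¹ (inv_mem hr)).symm
        calc (r * x * r⁻¹)⁻¹ * u = r * x⁻¹ * (r⁻¹ * u) := by group
          _ = r * x⁻¹ * (u * r⁻¹) := by rw [h3]
          _ = r * (x⁻¹ * u) * r⁻¹ := by group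
      show cls H y (r * x * r⁻¹) * f ((r * x * r⁻¹)⁻¹ * u) = cls H y x * f (x⁻¹ * u)
      rw [e1, e2, hf.1 r (hQH r hr)])
  have hz : ∑ᶠ x ∈ (cz Q : Set G), (fun x => cls H y x * f (x⁻¹ * u)) x = 0 := by
    refine finsum_mem_eq_zero_of_forall_eq_zero fun x hx => ?_
    show cls H y x * f (x⁻¹ * u) = 0
    rcases k5 x with h0 | h1
    · rw [h0, zero_mul]
    exfalso
    obtain ⟨h, hh, hhx⟩ := (k4 x).1 h1
    have hQx : Q ≤ Cz H x := by
      intro q hq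
      refine (NQB_mem_Cz H x q).2 ⟨hQH q hq, ?_⟩
      exact (Subgroup.mem_centralizer_iff.1 hx q hq).symm
    have c1 : Nat.card Q ≤ pp p (Cz H x) := (s1 Q (Cz H x) hQp hQx).1
    have c2 : pp p (Cz H x) = pp p (Cz H y) := by
      rw [← hhx]; exact (s6 H y h hh).2
    have c3 : Nat.card D ≤ pp p (Cz H u) := (s1 D (Cz H u) hDp hDC).1
    apply hmain
    omega
  rw [hz, sub_zero] at hb
  exact hb

end Pool.Agent.NAB
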